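import Mathlib

set_option autoImplicit false

namespace Pool.Agent.Hhelper31

/-- The group of pairs `(n, b)` with `n` an integer and `b` rational, `(n, b) (m, c) = (n + m, b + 2 ^ n c)`. -/
structure Gp where
  n : ℤ
  b : ℚ

namespace Gp

theorem ext' {g h : Gp} (h1 : g.n = h.n) (h2 : g.b = h.b) : g = h := by
  cases g; cases h; simp_all

noncomputable instance : Mul Gp := ⟨fun g h => ⟨g.n + h.n, g.b + (2:ℚ) ^ g.n * h.b⟩⟩
noncomputable instance : One Gp := ⟨⟨0, 0⟩⟩
noncomputable instance : Inv Gp := ⟨fun g => ⟨-g.n, -((2:ℚ) ^ (-g.n) * g.b)⟩⟩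

@[simp] theorem mul_n (g h : Gp) : (g * h).n = g.n + h.n := rfl
@[simp] theorem mul_b (g h : Gp) : (g * h).b = g.b + (2:ℚ) ^ g.n * h.b := rfl
@[simp] theorem one_n : (1 : Gp).n = 0 := rfl
@[simp] theorem one_b : (1 : Gp).b = 0 := rfl
@[simp] theorem inv_n (g : Gp) : (g⁻¹).n = -g.n := rfl
@[simp] theorem inv_b (g : Gp) : (g⁻¹).b = -((2:ℚ) ^ (-g.n) * g.b) := rfl

noncomputable instance : Group Gp where
  mul_assoc a b c := by
    apply ext'
    · simp [add_assoc]
    · simp only [mul_b, mul_n]
      rw [zpow_add₀ (by norm_num)]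
      ring
  one_mul a := by apply ext' <;> simp
  mul_one a := by apply ext' <;> simp
  inv_mul_cancel a := by
    apply ext'
    · simp
    · simp

instance : Countable Gp := by
  have : Function.Injective (fun g : Gp => (g.n, g.b)) := by
    intro g h hgh
    simp only [Prod.mk.injEq] at hgh
    exact ext' hgh.1 hgh.2
  exact this.countable

/-- the generator -/
noncomputable def x : Gp := ⟨1, 0⟩
noncomputable def y : Gp := ⟨2, 0⟩

@[simp] theorem x_n : x.n = 1 := rfl
@[simp] theorem x_b : x.b = 0 := rfl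
@[simp] theorem y_n : y.n = 2 := rfl
@[simp] theorem y_b : y.b = 0 := rfl

theorem x_mul_x : x * x = y := by apply ext' <;> simp

end Gp
end Pool.Agent.Hhelper31
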