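import Mathlib

set_option autoImplicit false

namespace Pool.Agent.Hhelper31

open scoped ENNReal

/-- square summable functions on `G` -/
abbrev H2 (G : Type) : Type := lp (fun _ : G => ℂ) 2

section
variable {G : Type}

theorem two_toReal_pos : 0 < (2 : ℝ≥0∞).toReal := by norm_num

theorem memlp_perm (σ : Equiv.Perm G) (f : H2 G) :
    Memℓp (fun g => (f : G → ℂ) (σ g)) 2 := by
  have hf := lp.memℓp f
  rw [memℓp_gen_iff two_toReal_pos] at hf ⊢
  exact (σ.summable_iff (f := fun g => ‖(f : G → ℂ) g‖ ^ (2 : ℝ≥0∞).toReal)).2 hf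

/-- composition with a permutation, linear map -/
noncomputable def permLin (σ : Equiv.Perm G) : H2 G →ₗ[ℂ] H2 G where
  toFun f := ⟨fun g => (f : G → ℂ) (σ g), memlp_perm σ f⟩
  map_add' f g := by ext; rfl
  map_smul' c f := by ext; rfl

theorem permLin_apply (σ : Equiv.Perm G) (f : H2 G) (g : G) :
    (permLin σ f : G → ℂ) g = f (σ g) := rfl

theorem permLin_norm (σ : Equiv.Perm G) (f : H2 G) : ‖permLin σ f‖ = ‖f‖ := by
  have h1 := lp.norm_rpow_eq_tsum two_toReal_pos (permLin σ f)
  have h2 := lp.norm_rpow_eq_tsum two_toReal_pos f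
  have h3 : (∑' i, ‖(permLin σ f : G → ℂ) i‖ ^ (2 : ℝ≥0∞).toReal)
      = ∑' i, ‖(f : G → ℂ) i‖ ^ (2 : ℝ≥0∞).toReal := by
    simp only [permLin_apply]
    exact σ.tsum_eq (fun g => ‖(f : G → ℂ) g‖ ^ (2 : ℝ≥0∞).toReal)
  rw [h3, ← h2] at h1
  exact (Real.rpow_left_inj (norm_nonneg _) (norm_nonneg _) two_toReal_pos.ne').1 h1

/-- composition with a permutation -/
noncomputable def perm (σ : Equiv.Perm G) : H2 G →L[ℂ] H2 G :=
  (permLin σ).mkContinuous 1 (fun f => by rw [permLin_norm, one_mul])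

theorem perm_apply (σ : Equiv.Perm G) (f : H2 G) (g : G) :
    (perm σ f : G → ℂ) g = f (σ g) := rfl

theorem perm_mul (σ τ : Equiv.Perm G) : perm σ * perm τ = perm (τ * σ) := by
  ext1 f
  ext g
  simp [perm_apply]

theorem star_perm (σ : Equiv.Perm G) : star (perm σ) = perm σ⁻¹ := by
  rw [ContinuousLinearMap.star_eq_adjoint]
  symm
  rw [ContinuousLinearMap.eq_adjoint_iff]
  intro f g
  rw [lp.inner_eq_tsum, lp.inner_eq_tsum]
  simp only [perm_apply]
  rw [← σ.tsum_eq]
  simp

theorem memlp_mul (s : G → ℂ) (hs : ∀ g, ‖s g‖ ≤ 1) (f : H2 G) :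
    Memℓp (fun g => s g * (f : G → ℂ) g) 2 := by
  have hf := lp.memℓp f
  rw [memℓp_gen_iff two_toReal_pos] at hf ⊢
  refine Summable.of_nonneg_of_le (fun g => by positivity) (fun g => ?_) hf
  apply Real.rpow_le_rpow (norm_nonneg _) _ (by positivity)
  rw [norm_mul]
  exact mul_le_of_le_one_left (norm_nonneg _) (hs g)

/-- multiplication by a function bounded by one, linear map -/
noncomputable def mulLin (s : G → ℂ) (hs : ∀ g, ‖s g‖ ≤ 1) : H2 G →ₗ[ℂ] H2 G where
  toFun f := ⟨fun g => s g * (f : G → ℂ) g, memlp_mul s hs f⟩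
  map_add' f g := by
    ext i
    show s i * ((f : G → ℂ) i + (g : G → ℂ) i) = _
    rw [mul_add]
    rfl
  map_smul' c f := by
    ext i
    simp [mul_left_comm]

theorem mulLin_apply (s : G → ℂ) (hs : ∀ g, ‖s g‖ ≤ 1) (f : H2 G) (g : G) :
    (mulLin s hs f : G → ℂ) g = s g * f g := rfl

theorem mulLin_norm (s : G → ℂ) (hs : ∀ g, ‖s g‖ ≤ 1) (f : H2 G) : ‖mulLin s hs f‖ ≤ ‖f‖ := by
  apply lp.norm_le_of_forall_sum_le two_toReal_pos (norm_nonneg _)
  intro t
  refine le_trans (Finset.sum_le_sum (fun g _ => ?_)) (lp.sum_rpow_le_norm_rpow two_toReal_pos f t)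
  apply Real.rpow_le_rpow (norm_nonneg _) _ (by positivity)
  rw [mulLin_apply, norm_mul]
  exact mul_le_of_le_one_left (norm_nonneg _) (hs g)

/-- multiplication by a function bounded by one -/
noncomputable def mulOp (s : G → ℂ) (hs : ∀ g, ‖s g‖ ≤ 1) : H2 G →L[ℂ] H2 G :=
  (mulLin s hs).mkContinuous 1 (fun f => by rw [one_mul]; exact mulLin_norm s hs f)

theorem mulOp_apply (s : G → ℂ) (hs : ∀ g, ‖s g‖ ≤ 1) (f : H2 G) (g : G) :
    (mulOp s hs f : G → ℂ) g = s g * f g := rfl

open Classical in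
/-- delta function -/
noncomputable def dl (g : G) : H2 G := lp.single 2 g (1 : ℂ)

open Classical in
theorem dl_apply (g h : G) : (dl g : G → ℂ) h = if h = g then 1 else 0 := by
  unfold dl
  rw [lp.single_apply]
  by_cases hgh : h = g
  · subst hgh; simp
  · simp [hgh]

theorem dl_self (g : G) : (dl g : G → ℂ) g = 1 := by simp [dl_apply]
theorem dl_ne {g h : G} (hgh : h ≠ g) : (dl g : G → ℂ) h = 0 := by simp [dl_apply, hgh]

theorem clm_ext {S T : H2 G →L[ℂ] H2 G} (h : ∀ g, S (dl g) = T (dl g)) : S = T := by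
  classical
  apply lp.ext_continuousLinearMap (by norm_num : (2 : ℝ≥0∞) ≠ ∞)
  intro g
  ext1
  simp only [ContinuousLinearMap.comp_apply, lp.singleContinuousLinearMap_apply]
  have := h g
  unfold dl at this
  convert this

/-- A square summable function that is constant on an infinite set vanishes there. -/
theorem zero_of_infinite (f : H2 G) (S : Set G) (hS : S.Infinite) (c : ℂ)
    (h : ∀ g ∈ S, (f : G → ℂ) g = c) : c = 0 := by
  by_contra hc
  have hf := lp.memℓp f
  rw [memℓp_gen_iff two_toReal_pos] at hf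
  have h1 := hf.tendsto_cofinite_zero
  have hpos : 0 < ‖c‖ ^ (2 : ℝ≥0∞).toReal := by positivity
  have h2 := h1.eventually (gt_mem_nhds hpos)
  rw [Filter.eventually_cofinite] at h2
  apply hS
  apply h2.subset
  intro g hg
  simp only [Set.mem_ofPred_eq, not_lt]
  rw [h g hg]

theorem zero_of_orbit (f : H2 G) (g : G) (u : ℕ → G) (hu : Function.Injective u)
    (h : ∀ n, (f : G → ℂ) (u n) = f g) : (f : G → ℂ) g = 0 := by
  apply zero_of_infinite f (Set.range u) (Set.infinite_range_of_injective hu)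
  rintro _ ⟨n, rfl⟩
  exact h n

theorem separable_H2 [Countable G] : TopologicalSpace.SeparableSpace (H2 G) := by
  classical
  have h1 : (Set.range (fun g : G => dl g)).Countable := Set.countable_range _
  have h2 : TopologicalSpace.IsSeparable
      ((Submodule.span ℂ (Set.range (fun g : G => dl g)) : Submodule ℂ (H2 G)) : Set (H2 G)) :=
    h1.isSeparable.span
  have h3 := h2.closure
  rw [← TopologicalSpace.isSeparable_univ_iff]
  apply h3.mono
  intro f _
  have h4 := lp.hasSum_single (by norm_num : (2 : ℝ≥0∞) ≠ ⊤) f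
  apply mem_closure_of_tendsto h4
  apply Filter.Eventually.of_forall
  intro s
  apply Submodule.sum_mem
  intro g _
  have : lp.single 2 g ((f : G → ℂ) g) = (f : G → ℂ) g • dl g := by
    unfold dl
    rw [← lp.single_smul]
    simp
  rw [this]
  apply Submodule.smul_mem
  apply Submodule.subset_span
  exact ⟨g, rfl⟩

end

end Pool.Agent.Hhelper31
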