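import Mathlib
import Pool.Agent.Hhelper31.Gp
import Pool.Agent.Hhelper31.Ops

set_option autoImplicit false

namespace Pool.Agent.Hhelper31

open Gp

/-- the Hilbert space -/
abbrev HH : Type := H2 Gp

/-- right translations -/
noncomputable def R (g : Gp) : HH →L[ℂ] HH := perm (Equiv.mulRight g)
/-- left translations -/
noncomputable def L (g : Gp) : HH →L[ℂ] HH := perm (Equiv.mulLeft g⁻¹)

theorem R_apply (g : Gp) (f : HH) (h : Gp) : (R g f : Gp → ℂ) h = f (h * g) := rfl
theorem L_apply (g : Gp) (f : HH) (h : Gp) : (L g f : Gp → ℂ) h = f (g⁻¹ * h) := rfl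

theorem star_R (g : Gp) : star (R g) = R g⁻¹ := by
  unfold R
  rw [star_perm]
  rfl
theorem star_L (g : Gp) : star (L g) = L g⁻¹ := by
  unfold L
  rw [star_perm]
  rfl

theorem R_mul_L (g h : Gp) : R g * L h = L h * R g := by
  ext f
  simp only [mul_apply_eq_comp, R_apply, L_apply, mul_assoc]

theorem L_mul_L (g h : Gp) : L g * L h = L (g * h) := by
  ext f k
  simp only [mul_apply_eq_comp, L_apply, mul_inv_rev, mul_assoc]

theorem L_one : L 1 = 1 := by
  ext f k
  simp [L_apply]

theorem L_dl (g h : Gp) : L g (dl h) = dl (g * h) := by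
  ext k
  rw [L_apply, dl_apply, dl_apply]
  by_cases h1 : k = g * h
  · rw [if_pos h1, if_pos (by rw [h1, inv_mul_cancel_left])]
  · rw [if_neg h1, if_neg (fun h2 => h1 (by rw [← h2, mul_inv_cancel_left]))]

theorem R_dl (g h : Gp) : R g (dl h) = dl (h * g⁻¹) := by
  ext k
  rw [R_apply, dl_apply, dl_apply]
  by_cases h1 : k = h * g⁻¹
  · rw [if_pos h1, if_pos (by rw [h1, inv_mul_cancel_right])]
  · rw [if_neg h1, if_neg (fun h2 => h1 (by rw [← h2, mul_inv_cancel_right]))]

/-- The von Neumann algebra: commutant of the right translations. -/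
noncomputable def M : VonNeumannAlgebra HH where
  toStarSubalgebra := StarSubalgebra.centralizer ℂ (Set.range R)
  centralizer_centralizer' := by
    show Set.centralizer (Set.centralizer
      ((StarSubalgebra.centralizer ℂ (Set.range R) : StarSubalgebra ℂ (HH →L[ℂ] HH)) :
        Set (HH →L[ℂ] HH))) =
      ((StarSubalgebra.centralizer ℂ (Set.range R) : StarSubalgebra ℂ (HH →L[ℂ] HH)) :
        Set (HH →L[ℂ] HH))
    rw [StarSubalgebra.coe_centralizer, Set.centralizer_centralizer_centralizer]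

theorem mem_M {T : HH →L[ℂ] HH} : T ∈ M ↔ ∀ g, R g * T = T * R g := by
  have h1 : T ∈ M ↔ T ∈ (StarSubalgebra.centralizer ℂ (Set.range R)) := Iff.rfl
  rw [h1, StarSubalgebra.mem_centralizer_iff]
  constructor
  · intro h g
    exact (h (R g) ⟨g, rfl⟩).1
  · rintro h _ ⟨g, rfl⟩
    refine ⟨h g, ?_⟩
    rw [star_R]
    exact h g⁻¹

theorem L_mem (g : Gp) : L g ∈ M := mem_M.2 (fun h => R_mul_L h g)

theorem M_apply {T : HH →L[ℂ] HH} (hT : T ∈ M) (g : Gp) : T (dl g) = R g⁻¹ (T (dl 1)) := by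
  have h1 := mem_M.1 hT g⁻¹
  have h2 : (R g⁻¹ * T) (dl 1) = (T * R g⁻¹) (dl 1) := by rw [h1]
  simp only [mul_apply_eq_comp, R_dl] at h2
  rw [h2]
  simp

theorem M_apply' {T : HH →L[ℂ] HH} (hT : T ∈ M) (g h : Gp) :
    (T (dl g) : Gp → ℂ) h = (T (dl 1) : Gp → ℂ) (h * g⁻¹) := by
  rw [M_apply hT, R_apply]

theorem M_ext {S T : HH →L[ℂ] HH} (hS : S ∈ M) (hT : T ∈ M) (h : S (dl 1) = T (dl 1)) :
    S = T := by
  apply clm_ext
  intro g
  rw [M_apply hS, M_apply hT, h]

theorem mul_mem_M {S T : HH →L[ℂ] HH} (hS : S ∈ M) (hT : T ∈ M) : S * T ∈ M := by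
  rw [mem_M] at *
  intro g
  rw [← mul_assoc, hS g, mul_assoc, hT g, mul_assoc]

theorem add_mem_M {S T : HH →L[ℂ] HH} (hS : S ∈ M) (hT : T ∈ M) : S + T ∈ M := by
  rw [mem_M] at *
  intro g
  rw [mul_add, add_mul, hS g, hT g]

theorem smul_mem_M {T : HH →L[ℂ] HH} (c : ℂ) (hT : T ∈ M) : c • T ∈ M := by
  rw [mem_M] at *
  intro g
  rw [mul_smul_comm, smul_mul_assoc, hT g]

theorem one_mem_M : (1 : HH →L[ℂ] HH) ∈ M := by
  rw [mem_M]
  intro g
  rw [mul_one, one_mul]

/-- commutation with an element of `M` on the level of coefficients -/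
theorem comm_coeff {T : HH →L[ℂ] HH} (hT : T ∈ M) (k h : Gp) :
    ((T * L k) (dl 1) : Gp → ℂ) h = (T (dl 1) : Gp → ℂ) (h * k⁻¹) := by
  rw [mul_apply_eq_comp, L_dl, mul_one, M_apply' hT]

theorem comm_coeff' {T : HH →L[ℂ] HH} (k h : Gp) :
    ((L k * T) (dl 1) : Gp → ℂ) h = (T (dl 1) : Gp → ℂ) (k⁻¹ * h) := by
  rw [mul_apply_eq_comp, L_apply]

/-- Elements of `M` commuting with `L k` for all `k` with even first coordinate are scalar. -/
theorem scalar_of_comm {T : HH →L[ℂ] HH} (hT : T ∈ M)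
    (h : ∀ k : Gp, Even k.n → T * L k = L k * T) :
    T = ((T (dl 1) : Gp → ℂ) 1) • (1 : HH →L[ℂ] HH) := by
  set t := T (dl 1) with ht
  have key : ∀ k : Gp, Even k.n → ∀ g : Gp, (t : Gp → ℂ) (k * g * k⁻¹) = (t : Gp → ℂ) g := by
    intro k hk g
    have h1 := comm_coeff hT k (k * g)
    rw [h k hk, comm_coeff' k] at h1
    rw [ht, ← h1, inv_mul_cancel_left]
  have hzero : ∀ g : Gp, g ≠ 1 → (t : Gp → ℂ) g = 0 := by
    intro g hg
    by_cases hn : g.n = 0
    · have hb : g.b ≠ 0 := by
        intro hb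
        exact hg (Gp.ext' hn hb)
      apply zero_of_orbit t g (fun m : ℕ => (⟨2 * m, 0⟩ : Gp) * g * (⟨2 * m, 0⟩ : Gp)⁻¹)
      · intro m1 m2 hm
        have := congrArg Gp.b hm
        simp only [mul_b, mul_n, zero_add, inv_b, mul_zero, neg_zero, add_zero] at this
        have h2 := mul_right_cancel₀ hb this
        have h3 := zpow_right_injective₀ (by norm_num : (0:ℚ) < 2) (by norm_num) h2
        simpa using h3
      · intro m
        exact key _ ⟨m, by ring⟩ g
    · apply zero_of_orbit t g (fun m : ℕ => (⟨0, m⟩ : Gp) * g * (⟨0, m⟩ : Gp)⁻¹)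
      · intro m1 m2 hm
        have := congrArg Gp.b hm
        simp only [mul_b, mul_n, zero_add, inv_b, zpow_zero, one_mul, neg_zero] at this
        have h2 : ((m1 : ℚ) - m2) * (1 - 2 ^ g.n) = 0 := by linarith
        rcases mul_eq_zero.1 h2 with h3 | h3
        · have : (m1 : ℚ) = m2 := by linarith
          exact_mod_cast this
        · exfalso
          apply hn
          have h4 : (2 : ℚ) ^ g.n = 2 ^ (0 : ℤ) := by
            rw [zpow_zero]; linarith
          exact zpow_right_injective₀ (by norm_num : (0:ℚ) < 2) (by norm_num) h4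
      · intro m
        exact key _ (by simp) g
  apply M_ext hT (smul_mem_M _ one_mem_M)
  rw [← ht]
  ext g
  by_cases hg : g = 1
  · subst hg
    simp [dl_self]
  · rw [hzero g hg]
    simp [dl_ne hg]

/-- the element `c` -/
noncomputable def cc : HH →L[ℂ] HH := L x + L x⁻¹
/-- the element `a` -/
noncomputable def aa : HH →L[ℂ] HH := L y + L y⁻¹

theorem cc_mem : cc ∈ M := add_mem_M (L_mem _) (L_mem _)
theorem aa_mem : aa ∈ M := add_mem_M (L_mem _) (L_mem _)

theorem cc_sa : IsSelfAdjoint cc := by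
  rw [isSelfAdjoint_iff]
  unfold cc
  rw [star_add, star_L, star_L, inv_inv, add_comm]
theorem aa_sa : IsSelfAdjoint aa := by
  rw [isSelfAdjoint_iff]
  unfold aa
  rw [star_add, star_L, star_L, inv_inv, add_comm]

theorem cc_sq : cc * cc = aa + 2 • (1 : HH →L[ℂ] HH) := by
  unfold cc aa
  rw [add_mul, mul_add, mul_add, L_mul_L, L_mul_L, L_mul_L, L_mul_L, x_mul_x,
    ← mul_inv_rev, x_mul_x]
  simp only [mul_inv_cancel, inv_mul_cancel, L_one]
  rw [two_smul]
  abel

/-- The crucial fact: inside `M` the commutants of `a` and `c` coincide. -/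
theorem comm_aa_iff {T : HH →L[ℂ] HH} (hT : T ∈ M) : Commute aa T ↔ Commute cc T := by
  constructor
  · intro h
    set t := T (dl 1) with ht
    have h0 : T * aa = aa * T := h.eq.symm
    have h1 : ∀ g : Gp, (t : Gp → ℂ) (y * g) - (t : Gp → ℂ) (g * y)
        = (t : Gp → ℂ) (g * y⁻¹) - (t : Gp → ℂ) (y⁻¹ * g) := by
      intro g
      have h2 : ((T * aa) (dl 1) : Gp → ℂ) g = ((aa * T) (dl 1) : Gp → ℂ) g := by rw [h0]
      unfold aa at h2
      rw [mul_add, add_mul, add_apply, add_apply] at h2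
      have h3 : ((T * L y) (dl 1) : Gp → ℂ) g + ((T * L y⁻¹) (dl 1) : Gp → ℂ) g
        = ((L y * T) (dl 1) : Gp → ℂ) g + ((L y⁻¹ * T) (dl 1) : Gp → ℂ) g := h2
      rw [comm_coeff hT, comm_coeff hT, comm_coeff', comm_coeff', inv_inv, ← ht] at h3
      linear_combination (-1 : ℂ) * h3
    -- the difference function
    let D : HH := L y⁻¹ t - R y t
    have hD : ∀ g : Gp, (D : Gp → ℂ) g = (t : Gp → ℂ) (y * g) - (t : Gp → ℂ) (g * y) := by
      intro g
      show (L y⁻¹ t : Gp → ℂ) g - (R y t : Gp → ℂ) g = _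
      rw [L_apply, R_apply, inv_inv]
    have hDinv : ∀ g : Gp, (D : Gp → ℂ) (y⁻¹ * g * y⁻¹) = (D : Gp → ℂ) g := by
      intro g
      rw [hD, hD, h1 g]
      congr 1
      · congr 1
        group
      · congr 1
        group
    have hDinv' : ∀ (m : ℕ) (g : Gp), (D : Gp → ℂ) ((y⁻¹) ^ m * g * (y⁻¹) ^ m) = (D : Gp → ℂ) g := by
      intro m
      induction m with
      | zero => intro g; simp
      | succ m ih =>
        intro g
        rw [← ih g, ← hDinv ((y⁻¹) ^ m * g * (y⁻¹) ^ m)]
        congr 1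
        rw [pow_succ' (y⁻¹) m]
        conv_lhs => rw [← pow_succ', pow_succ' (y⁻¹) m, mul_assoc, mul_assoc]
        conv_rhs => rw [mul_assoc, mul_assoc, mul_assoc, ← pow_succ]
        rw [pow_succ']
    have hyn : ∀ m : ℕ, ((y⁻¹) ^ m).n = -2 * m ∧ ((y⁻¹) ^ m).b = 0 := by
      intro m
      induction m with
      | zero => simp
      | succ m ih =>
        rw [pow_succ]
        constructor
        · rw [mul_n, ih.1]; simp; ring
        · rw [mul_b, ih.2]; simp
    have hDzero : ∀ g : Gp, (D : Gp → ℂ) g = 0 := by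
      intro g
      apply zero_of_orbit D g (fun m : ℕ => (y⁻¹) ^ m * g * (y⁻¹) ^ m)
      · intro m1 m2 hm
        have := congrArg Gp.n hm
        simp only [mul_n, (hyn m1).1, (hyn m2).1] at this
        have : (m1 : ℤ) = m2 := by linarith
        exact_mod_cast this
      · intro m
        exact hDinv' m g
    have h4 : ∀ g : Gp, (t : Gp → ℂ) (y * g) = (t : Gp → ℂ) (g * y) := by
      intro g
      have := hD g
      rw [hDzero g] at this
      exact (sub_eq_zero.1 this.symm)
    have h5 : ∀ g : Gp, (t : Gp → ℂ) (y * g * y⁻¹) = (t : Gp → ℂ) g := by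
      intro g
      rw [mul_assoc, h4]
      simp
    have hyn' : ∀ m : ℕ, (y ^ m).n = 2 * m ∧ (y ^ m).b = 0 := by
      intro m
      induction m with
      | zero => simp
      | succ m ih =>
        rw [pow_succ]
        constructor
        · rw [mul_n, ih.1]; simp; ring
        · rw [mul_b, ih.2]; simp
    have h6 : ∀ (m : ℕ) (g : Gp), (t : Gp → ℂ) (y ^ m * g * (y ^ m)⁻¹) = (t : Gp → ℂ) g := by
      intro m
      induction m with
      | zero => intro g; simp
      | succ m ih =>
        intro g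
        rw [← ih g, ← h5 (y ^ m * g * (y ^ m)⁻¹)]
        congr 1
        rw [pow_succ']
        group
    have h7 : ∀ g : Gp, g.b ≠ 0 → (t : Gp → ℂ) g = 0 := by
      intro g hb
      apply zero_of_orbit t g (fun m : ℕ => y ^ m * g * (y ^ m)⁻¹)
      · intro m1 m2 hm
        have := congrArg Gp.b hm
        simp only [mul_b, mul_n, inv_b, (hyn' m1).1, (hyn' m1).2, (hyn' m2).1, (hyn' m2).2,
          mul_zero, neg_zero, add_zero, zero_add] at this
        have h2 := mul_right_cancel₀ hb this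
        have h3 := zpow_right_injective₀ (by norm_num : (0:ℚ) < 2) (by norm_num) h2
        simpa using h3
      · intro m
        exact h6 m g
    have h8 : ∀ (k g : Gp), k.b = 0 → (t : Gp → ℂ) (k * g) = (t : Gp → ℂ) (g * k) := by
      intro k g hk
      by_cases hb : g.b = 0
      · have : k * g = g * k := by
          apply Gp.ext'
          · simp [add_comm]
          · simp [hk, hb]
        rw [this]
      · rw [h7, h7]
        · simp [hk, hb]
        · simp only [mul_b, hk, zero_add]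
          exact mul_ne_zero (by positivity) hb
    have h9 : cc * T = T * cc := by
      apply M_ext (mul_mem_M cc_mem hT) (mul_mem_M hT cc_mem)
      ext g
      unfold cc
      rw [mul_add, add_mul, add_apply, add_apply]
      show ((L x * T) (dl 1) : Gp → ℂ) g + ((L x⁻¹ * T) (dl 1) : Gp → ℂ) g
        = ((T * L x) (dl 1) : Gp → ℂ) g + ((T * L x⁻¹) (dl 1) : Gp → ℂ) g
      rw [comm_coeff hT, comm_coeff hT, comm_coeff', comm_coeff', ← ht, h8 x⁻¹ g (by simp),
        h8 x⁻¹⁻¹ g (by simp), inv_inv, add_comm]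
    exact h9
  · intro h
    have h1 : aa = cc * cc - 2 • (1 : HH →L[ℂ] HH) := by
      rw [cc_sq]; abel
    rw [h1]
    apply Commute.sub_left
    · exact h.mul_left h
    · apply Commute.smul_left
      exact Commute.one_left T

end Pool.Agent.Hhelper31
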